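import Pool.Agent.H943R3.SD.Point

set_option autoImplicit false

namespace Pool.Agent.Results.MP_173de9_an.ShiftAverage

open MeasureTheory

/-- The local discrepancy `∏ x_j - (1/m) Σ_μ χ_{[0,x]}(ξ^μ)` of `m` points `ξ` at `x`. -/
noncomputable def localDisc {m d : ℕ} (ξ : Fin m → Fin d → ℝ) (x : Fin d → ℝ) : ℝ :=
  ∏ j, x j - (1 / (m:ℝ)) * ∑ μ : Fin m, (Set.Icc (0 : Fin d → ℝ) x).indicator (fun _ => (1:ℝ)) (ξ μ)

/-- `D(ξ,m,d)_q`: the `L_q` norm of the local discrepancy over `[0,1]^d`. -/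
noncomputable def starDisc (q : ENNReal) {m d : ℕ} (ξ : Fin m → Fin d → ℝ) : ENNReal :=
  eLpNorm (localDisc ξ) q (volume.restrict (Set.Icc (0 : Fin d → ℝ) 1))

/-- the digital shift by `s` of a number `y ∈ [0,1)`: for every `i < L` with `s i = true` the
binary digit of `y` of weight `2^{-(i+1)}` (which is `⌊2^{i+1} y⌋ mod 2`) is flipped. -/
noncomputable def digitalShift {L : ℕ} (s : Fin L → Bool) (y : ℝ) : ℝ :=
  y + ∑ i : Fin L, if s i = true then
    (1 - 2 * ((⌊(2 : ℝ) ^ ((i : ℕ) + 1) * y⌋ % 2 : ℤ) : ℝ)) / 2 ^ ((i : ℕ) + 1) else 0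

/-- the digital shift by `s` of the coordinate `j₀` of every point of `ξ`; the other coordinates
are unchanged. -/
noncomputable def shiftCoord {m d L : ℕ} (j₀ : Fin d) (s : Fin L → Bool) (ξ : Fin m → Fin d → ℝ) :
    Fin m → Fin d → ℝ :=
  fun μ => Function.update (ξ μ) j₀ (digitalShift s (ξ μ j₀))

theorem digitalShift_eq {L : ℕ} (s : Fin L → Bool) (y : ℝ) :
    digitalShift s y = H943R3.SD.dshift s y := rfl

theorem shift_mem {m d L : ℕ} (j₀ : Fin d) (s : Fin L → Bool) (ξ : Fin m → Fin d → ℝ)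
    (hξ : ∀ μ, ξ μ ∈ Set.Icc (0 : Fin d → ℝ) 1) (hlt : ∀ μ, ξ μ j₀ < 1) (μ : Fin m) :
    shiftCoord j₀ s ξ μ ∈ Set.Icc (0 : Fin d → ℝ) 1 ∧ shiftCoord j₀ s ξ μ j₀ < 1 := by
  have h := H943R3.SD.dshift_mem L s (ξ μ j₀) ((hξ μ).1 j₀) (hlt μ)
  unfold shiftCoord
  refine ⟨⟨?_, ?_⟩, ?_⟩
  · intro i
    by_cases hi : i = j₀
    · subst hi
      rw [Function.update_self]
      exact h.1
    · rw [Function.update_of_ne hi]
      exact (hξ μ).1 i
  · intro i
    by_cases hi : i = j₀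
    · subst hi
      rw [Function.update_self]
      exact h.2.le
    · rw [Function.update_of_ne hi]
      exact (hξ μ).2 i
  · rw [Function.update_self]
    exact h.2

/-- the local discrepancy of the shifted set on a grid line is the shifted one-dimensional
discrepancy -/
theorem local_eq {m n L : ℕ} (hm : 0 < m) (j₀ : Fin (n + 1)) (s : Fin L → Bool)
    (ξ : Fin m → Fin (n + 1) → ℝ)
    (hξ : ∀ μ, ξ μ ∈ Set.Icc (0 : Fin (n + 1) → ℝ) 1) (hlt : ∀ μ, ξ μ j₀ < 1)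
    (x : Fin n → ℝ) (u : ℝ) :
    (m : ℝ) * localDisc (shiftCoord j₀ s ξ) (j₀.insertNth u x) =
      H943R3.SD.D1 Finset.univ (fun μ => if ∀ a, ξ μ (j₀.succAbove a) ≤ x a then (1 : ℝ) else 0)
        (fun μ => H943R3.SD.dshift s (ξ μ j₀)) (m * ∏ a, x a) u := by
  classical
  have hm0 : (m : ℝ) ≠ 0 := by exact_mod_cast hm.ne'
  unfold localDisc H943R3.SD.D1
  rw [Fin.prod_univ_succAbove _ j₀]
  simp only [Fin.insertNth_apply_same, Fin.insertNth_apply_succAbove]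
  have hterm : ∀ μ, (Set.Icc (0 : Fin (n + 1) → ℝ) (j₀.insertNth u x)).indicator
      (fun _ => (1:ℝ)) (shiftCoord j₀ s ξ μ) =
      if H943R3.SD.dshift s (ξ μ j₀) ≤ u then
        (if ∀ a, ξ μ (j₀.succAbove a) ≤ x a then (1 : ℝ) else 0) else 0 := by
    intro μ
    have hiff : shiftCoord j₀ s ξ μ ∈ Set.Icc (0 : Fin (n + 1) → ℝ) (j₀.insertNth u x) ↔
        H943R3.SD.dshift s (ξ μ j₀) ≤ u ∧ ∀ a, ξ μ (j₀.succAbove a) ≤ x a := by
      rw [Set.mem_Icc, and_iff_right (shift_mem j₀ s ξ hξ hlt μ).1.1, Pi.le_def,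
        Fin.forall_iff_succAbove j₀]
      unfold shiftCoord
      simp only [Fin.insertNth_apply_same, Fin.insertNth_apply_succAbove, Function.update_self,
        digitalShift_eq]
      constructor
      · rintro ⟨h1, h2⟩
        refine ⟨h1, fun a => ?_⟩
        have := h2 a
        rwa [Function.update_of_ne (Fin.succAbove_ne j₀ a)] at this
      · rintro ⟨h1, h2⟩
        refine ⟨h1, fun a => ?_⟩
        rw [Function.update_of_ne (Fin.succAbove_ne j₀ a)]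
        exact h2 a
    by_cases h1 : H943R3.SD.dshift s (ξ μ j₀) ≤ u
    · rw [if_pos h1]
      by_cases h2 : ∀ a, ξ μ (j₀.succAbove a) ≤ x a
      · rw [if_pos h2, Set.indicator_of_mem (hiff.2 ⟨h1, h2⟩)]
      · rw [if_neg h2, Set.indicator_of_notMem (fun h => h2 (hiff.1 h).2)]
    · rw [if_neg h1, Set.indicator_of_notMem (fun h => h1 (hiff.1 h).1)]
  simp only [hterm]
  field_simp

/-- pointwise (in the remaining coordinates) form of the bound -/
theorem pointwise {m n L : ℕ} (hm : 0 < m) (j₀ : Fin (n + 1))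
    (ξ : Fin m → Fin (n + 1) → ℝ)
    (hξ : ∀ μ, ξ μ ∈ Set.Icc (0 : Fin (n + 1) → ℝ) 1) (hlt : ∀ μ, ξ μ j₀ < 1)
    (A : (Fin L → Bool) → ℝ) (hA0 : ∀ s, 0 ≤ A s)
    (hA : ∀ s, starDisc ⊤ (shiftCoord j₀ s ξ) = ENNReal.ofReal (A s))
    (x : Fin n → ℝ) (hx0 : ∀ a, 0 ≤ x a) (hx1 : ∀ a, x a < 1) :
    ∑ t ∈ Finset.range L, H943R3.SD.lev Finset.univ
      (fun μ => if ∀ a, ξ μ (j₀.succAbove a) ≤ x a then (1 : ℝ) else 0)
        (fun μ => ξ μ j₀) (m * ∏ a, x a) t ≤ 4 * m * (∑ s, A s) / 2 ^ L := by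
  have hm0 : (0 : ℝ) < m := by exact_mod_cast hm
  have hpt : ∀ s : Fin L → Bool, ∀ k : ℕ, k < 2 ^ L →
      |H943R3.SD.D1 Finset.univ (fun μ => if ∀ a, ξ μ (j₀.succAbove a) ≤ x a then (1 : ℝ) else 0)
        (fun μ => H943R3.SD.dshift s (ξ μ j₀)) (m * ∏ a, x a) ((k : ℝ) / 2 ^ L)| ≤ m * A s := by
    intro s k hk
    rw [← local_eq hm j₀ s ξ hξ hlt x, abs_mul, abs_of_pos hm0]
    apply mul_le_mul_of_nonneg_left _ hm0.le
    have hLp : (0 : ℝ) < 2 ^ L := by positivity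
    have h1 := H943R3.SD.pointwise_le (shiftCoord j₀ s ξ) (j₀.insertNth ((k : ℝ) / 2 ^ L) x)
      (by
        rw [Fin.forall_iff_succAbove j₀]
        simp only [Fin.insertNth_apply_same, Fin.insertNth_apply_succAbove]
        exact ⟨by positivity, hx0⟩)
      (by
        rw [Fin.forall_iff_succAbove j₀]
        simp only [Fin.insertNth_apply_same, Fin.insertNth_apply_succAbove]
        refine ⟨?_, hx1⟩
        rw [div_lt_one hLp]
        exact_mod_cast hk)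
    have h2 : ‖localDisc (shiftCoord j₀ s ξ) (j₀.insertNth ((k : ℝ) / 2 ^ L) x)‖ₑ ≤
        ENNReal.ofReal (A s) := by
      rw [← hA s]
      exact h1
    rw [← ofReal_norm, Real.norm_eq_abs, ENNReal.ofReal_le_ofReal_iff (hA0 s)] at h2
    exact h2
  have h := H943R3.SD.osc_sum L Finset.univ
    (fun μ => if ∀ a, ξ μ (j₀.succAbove a) ≤ x a then (1 : ℝ) else 0)
    (fun μ => ξ μ j₀) (m * ∏ a, x a) (fun μ _ => ⟨(hξ μ).1 j₀, hlt μ⟩)
    (fun s => m * A s) (fun s => m * A s)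
    (fun s k hk => (le_abs_self _).trans (hpt s k hk))
    (fun s k hk => (neg_le_abs _).trans (hpt s k hk))
  rw [le_div_iff₀ (by positivity)]
  simp only [Finset.sum_add_distrib, ← Finset.mul_sum] at h
  linarith

/-- the main bound, with the number of levels -/
theorem main (n : ℕ) (hn : 1 ≤ n) : ∃ c : ℝ, 0 < c ∧ ∀ m : ℕ, 2 ≤ m →
    ∀ ξ : Fin m → Fin (n + 1) → ℝ, (∀ μ, ξ μ ∈ Set.Icc (0 : Fin (n + 1) → ℝ) 1) →
    ∀ j₀ : Fin (n + 1), (∀ μ, ξ μ j₀ < 1) → ∀ L : ℕ,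
      ENNReal.ofReal (c * min (L : ℝ) (Real.log m) * (Real.log m) ^ (((n : ℝ) - 1) / 2) / m) ≤
        (∑ s : Fin L → Bool, starDisc ⊤ (shiftCoord j₀ s ξ)) / 2 ^ L := by
  classical
  obtain ⟨c, hc, H⟩ := H943R3.SD.level_bound n hn
  refine ⟨c / 8, by positivity, ?_⟩
  intro m hm ξ hξ j₀ hlt L
  have hm0 : (0 : ℝ) < m := by exact_mod_cast (by omega : 0 < m)
  have hm1 : (1 : ℝ) ≤ m := by exact_mod_cast (by omega : 1 ≤ m)
  have hlm : 0 ≤ Real.log m := Real.log_nonneg hm1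
  have hpow : 0 ≤ (Real.log m) ^ (((n : ℝ) - 1) / 2) := Real.rpow_nonneg hlm _
  have hLp : (0 : ℝ) < 2 ^ L := by positivity
  by_cases htop : ∃ s : Fin L → Bool, starDisc ⊤ (shiftCoord j₀ s ξ) = ⊤
  · obtain ⟨s, hs⟩ := htop
    have h1 : ∑ s : Fin L → Bool, starDisc ⊤ (shiftCoord j₀ s ξ) = ⊤ :=
      ENNReal.sum_eq_top.2 ⟨s, Finset.mem_univ s, hs⟩
    rw [h1, ENNReal.top_div_of_ne_top (by simp)]
    exact le_top
  push Not at htop
  set A : (Fin L → Bool) → ℝ := fun s => (starDisc ⊤ (shiftCoord j₀ s ξ)).toReal with hAdef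
  have hA0 : ∀ s, 0 ≤ A s := fun s => ENNReal.toReal_nonneg
  have hA : ∀ s, starDisc ⊤ (shiftCoord j₀ s ξ) = ENNReal.ofReal (A s) :=
    fun s => (ENNReal.ofReal_toReal (htop s)).symm
  set K : ℕ := min L (Nat.log 4 m + 1) with hK
  have hKL : K ≤ L := min_le_left _ _
  set F : ℕ → (Fin n → ℝ) → ℝ := fun t x => H943R3.SD.lev Finset.univ
      (fun μ => if ∀ a, ξ μ (j₀.succAbove a) ≤ x a then (1 : ℝ) else 0)
        (fun μ => ξ μ j₀) (m * ∏ a, x a) t with hF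
  have hF0 : ∀ t x, 0 ≤ F t x := fun t x => H943R3.SD.lev_nonneg _ _ _ _ _
  have hFm : ∀ t, Measurable (F t) := fun t =>
    H943R3.SD.measurable_lev (fun μ a => ξ μ (j₀.succAbove a)) (fun μ => ξ μ j₀) t
  have hlow : (K : ENNReal) * ENNReal.ofReal (c * (Real.log m) ^ (((n : ℝ) - 1) / 2)) ≤
      ∫⁻ x in Set.Icc (0 : Fin n → ℝ) 1, ENNReal.ofReal (∑ t ∈ Finset.range K, F t x) := by
    calc (K : ENNReal) * ENNReal.ofReal (c * (Real.log m) ^ (((n : ℝ) - 1) / 2))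
        = ∑ t ∈ Finset.range K, ENNReal.ofReal (c * (Real.log m) ^ (((n : ℝ) - 1) / 2)) := by
          rw [Finset.sum_const, nsmul_eq_mul, Finset.card_range]
      _ ≤ ∑ t ∈ Finset.range K, ∫⁻ x in Set.Icc (0 : Fin n → ℝ) 1, ENNReal.ofReal (F t x) := by
          apply Finset.sum_le_sum
          intro t ht
          rw [Finset.mem_range] at ht
          have ht2 : t ≤ Nat.log 4 m := by
            have := lt_of_lt_of_le ht (min_le_right _ _)
            omega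
          exact H m hm (fun μ a => ξ μ (j₀.succAbove a)) (fun μ => ξ μ j₀) t
            (Nat.pow_le_of_le_log (by omega) ht2)
      _ = ∫⁻ x in Set.Icc (0 : Fin n → ℝ) 1, ∑ t ∈ Finset.range K, ENNReal.ofReal (F t x) := by
          rw [lintegral_finsetSum]
          exact fun t _ => (hFm t).ennreal_ofReal
      _ = _ := by
          apply lintegral_congr
          intro x
          rw [ENNReal.ofReal_sum_of_nonneg (fun t _ => hF0 t x)]
  have hup : ∫⁻ x in Set.Icc (0 : Fin n → ℝ) 1, ENNReal.ofReal (∑ t ∈ Finset.range K, F t x) ≤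
      ENNReal.ofReal (4 * m * (∑ s, A s) / 2 ^ L) := by
    have hIco : (Set.univ.pi fun i : Fin n => Set.Ico ((0 : Fin n → ℝ) i) ((1 : Fin n → ℝ) i))
        =ᵐ[volume] Set.Icc (0 : Fin n → ℝ) 1 := by
      exact Measure.univ_pi_Ico_ae_eq_Icc
    rw [← setLIntegral_congr hIco]
    calc ∫⁻ x in (Set.univ.pi fun i : Fin n => Set.Ico ((0 : Fin n → ℝ) i) ((1 : Fin n → ℝ) i)),
          ENNReal.ofReal (∑ t ∈ Finset.range K, F t x)
        ≤ ∫⁻ _ in (Set.univ.pi fun i : Fin n => Set.Ico ((0 : Fin n → ℝ) i) ((1 : Fin n → ℝ) i)),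
          ENNReal.ofReal (4 * m * (∑ s, A s) / 2 ^ L) := by
          apply setLIntegral_mono' (MeasurableSet.univ_pi fun i => measurableSet_Ico)
          intro x hx
          rw [Set.mem_univ_pi] at hx
          apply ENNReal.ofReal_le_ofReal
          refine le_trans ?_ (pointwise (by omega) j₀ ξ hξ hlt A hA0 hA x (fun a => (hx a).1)
            (fun a => (hx a).2))
          exact Finset.sum_le_sum_of_subset_of_nonneg (Finset.range_mono hKL)
            (fun t _ _ => hF0 t x)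
      _ = _ := by
          rw [setLIntegral_const, measure_congr hIco, Real.volume_Icc_pi]
          simp
  have hfin : (K : ℝ) * (c * (Real.log m) ^ (((n : ℝ) - 1) / 2)) ≤
      4 * m * (∑ s, A s) / 2 ^ L := by
    have h1 := hlow.trans hup
    rw [← ENNReal.ofReal_natCast, ← ENNReal.ofReal_mul (by positivity)] at h1
    have h2 : 0 ≤ 4 * m * (∑ s, A s) / 2 ^ L := by
      have := Finset.sum_nonneg (s := Finset.univ) (fun s _ => hA0 s)
      positivity
    exact (ENNReal.ofReal_le_ofReal_iff h2).1 h1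
  have hK2 : min (L : ℝ) (Real.log m) ≤ 2 * K := by
    have h1 : Real.log m ≤ 2 * ((Nat.log 4 m + 1 : ℕ) : ℝ) := by
      have h2 : (m : ℝ) ≤ 4 ^ (Nat.log 4 m + 1) := by
        have := Nat.lt_pow_succ_log_self (b := 4) (by norm_num) m
        exact_mod_cast this.le
      have h3 := Real.log_le_log hm0 h2
      rw [Real.log_pow] at h3
      have h4 : Real.log 4 ≤ 2 := by
        have : Real.log 4 = 2 * Real.log 2 := by
          rw [show (4 : ℝ) = 2 ^ 2 by norm_num, Real.log_pow]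
          norm_num
        have := Real.log_two_lt_d9
        linarith
      have h5 : (0 : ℝ) ≤ ((Nat.log 4 m + 1 : ℕ) : ℝ) := Nat.cast_nonneg _
      nlinarith
    rw [hK]
    rcases le_total L (Nat.log 4 m + 1) with h | h
    · rw [min_eq_left h]
      have : (0 : ℝ) ≤ L := Nat.cast_nonneg _
      linarith [min_le_left (L : ℝ) (Real.log m)]
    · rw [min_eq_right h]
      exact (min_le_right _ _).trans h1
  have hsum : (∑ s : Fin L → Bool, starDisc ⊤ (shiftCoord j₀ s ξ)) / 2 ^ L =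
      ENNReal.ofReal ((∑ s, A s) / 2 ^ L) := by
    simp only [hA]
    rw [← ENNReal.ofReal_sum_of_nonneg (fun s _ => hA0 s), ENNReal.ofReal_div_of_pos hLp,
      ENNReal.ofReal_pow (by norm_num)]
    simp
  rw [hsum]
  apply ENNReal.ofReal_le_ofReal
  rw [div_le_iff₀ hm0]
  have h6 : c / 8 * min (L : ℝ) (Real.log m) * (Real.log m) ^ (((n : ℝ) - 1) / 2) ≤
      c / 8 * (2 * K) * (Real.log m) ^ (((n : ℝ) - 1) / 2) := by
    apply mul_le_mul_of_nonneg_right _ hpow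
    exact mul_le_mul_of_nonneg_left hK2 (by positivity)
  refine h6.trans ?_
  have h7 : c / 8 * (2 * K) * (Real.log m) ^ (((n : ℝ) - 1) / 2) =
      (K : ℝ) * (c * (Real.log m) ^ (((n : ℝ) - 1) / 2)) / 4 := by ring
  rw [h7, div_le_iff₀ (by norm_num)]
  refine hfin.trans (le_of_eq ?_)
  ring

/-- Let `d ≥ 2`. There is `c > 0` such that for all `m ≥ 2`, every `m`-point set `ξ` in `[0,1]^d`,
every coordinate `j₀` with `ξ^μ_{j₀} < 1` for all `μ`, and every `L`: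
(1) all `2^L` digital shifts of `ξ` in the coordinate `j₀` are `m`-point sets in `[0,1]^d`;
(2) the mean over these `2^L` shifts of `D(·,m,d)_∞` is at least
`c min(L, ln m) (ln m)^{(d-2)/2} / m`;
(3) if `L ≥ ln m` this mean is at least `c (ln m)^{d/2} / m`, and hence some digital shift of `ξ`
in the single coordinate `j₀` has `D(·,m,d)_∞ ≥ c (ln m)^{d/2} / m`. -/
theorem result (d : ℕ) (hd : 2 ≤ d) : ∃ c : ℝ, 0 < c ∧ ∀ m : ℕ, 2 ≤ m →
    ∀ ξ : Fin m → Fin d → ℝ, (∀ μ, ξ μ ∈ Set.Icc (0 : Fin d → ℝ) 1) →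
    ∀ j₀ : Fin d, (∀ μ, ξ μ j₀ < 1) → ∀ L : ℕ,
      (∀ (s : Fin L → Bool) (μ : Fin m),
        shiftCoord j₀ s ξ μ ∈ Set.Icc (0 : Fin d → ℝ) 1 ∧ shiftCoord j₀ s ξ μ j₀ < 1) ∧
      ENNReal.ofReal (c * min (L : ℝ) (Real.log m) * (Real.log m) ^ (((d : ℝ) - 2) / 2) / m) ≤
        (∑ s : Fin L → Bool, starDisc ⊤ (shiftCoord j₀ s ξ)) / 2 ^ L ∧
      (Real.log m ≤ L →
        ENNReal.ofReal (c * (Real.log m) ^ ((d : ℝ) / 2) / m) ≤
          (∑ s : Fin L → Bool, starDisc ⊤ (shiftCoord j₀ s ξ)) / 2 ^ L ∧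
        ∃ s : Fin L → Bool, ENNReal.ofReal (c * (Real.log m) ^ ((d : ℝ) / 2) / m) ≤
          starDisc ⊤ (shiftCoord j₀ s ξ)) := by
  classical
  obtain ⟨n, rfl⟩ : ∃ n, d = n + 1 := ⟨d - 1, by omega⟩
  obtain ⟨c, hc, H⟩ := main n (by omega)
  refine ⟨c, hc, ?_⟩
  intro m hm ξ hξ j₀ hlt L
  have h1 := H m hm ξ hξ j₀ hlt L
  have hexp : (((n + 1 : ℕ) : ℝ) - 2) / 2 = ((n : ℝ) - 1) / 2 := by
    push_cast
    ring
  refine ⟨fun s μ => shift_mem j₀ s ξ hξ hlt μ, by rw [hexp]; exact h1, ?_⟩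
  intro hL
  have hm1 : (1 : ℝ) < m := by exact_mod_cast (by omega : 1 < m)
  have hlm : 0 < Real.log m := Real.log_pos hm1
  have hmean : ENNReal.ofReal (c * (Real.log m) ^ (((n + 1 : ℕ) : ℝ) / 2) / m) ≤
      (∑ s : Fin L → Bool, starDisc ⊤ (shiftCoord j₀ s ξ)) / 2 ^ L := by
    refine le_trans (le_of_eq ?_) h1
    congr 2
    rw [min_eq_right hL, mul_assoc]
    congr 1
    have h2 : ((n + 1 : ℕ) : ℝ) / 2 = 1 + ((n : ℝ) - 1) / 2 := by
      push_cast
      ring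
    rw [h2, Real.rpow_add hlm, Real.rpow_one]
  refine ⟨hmean, ?_⟩
  by_contra hcon
  push Not at hcon
  have h3 : ∑ s : Fin L → Bool, starDisc ⊤ (shiftCoord j₀ s ξ) <
      ∑ _s : Fin L → Bool, ENNReal.ofReal (c * (Real.log m) ^ (((n + 1 : ℕ) : ℝ) / 2) / m) :=
    ENNReal.sum_lt_sum_of_nonempty Finset.univ_nonempty (fun s _ => hcon s)
  rw [Finset.sum_const, nsmul_eq_mul] at h3
  have h4 : ((Finset.univ : Finset (Fin L → Bool)).card : ENNReal) = 2 ^ L := by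
    simp
  rw [h4] at h3
  have h5 : (∑ s : Fin L → Bool, starDisc ⊤ (shiftCoord j₀ s ξ)) / 2 ^ L <
      ENNReal.ofReal (c * (Real.log m) ^ (((n + 1 : ℕ) : ℝ) / 2) / m) :=
    ENNReal.div_lt_of_lt_mul' h3
  exact absurd hmean (not_le.2 h5)

end Pool.Agent.Results.MP_173de9_an.ShiftAverage
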