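import Pool.Agent.H730R2.LD.Meas
import Pool.Agent.H730R2.LU.Fin

/-!
# Weighted point sets and exponents below one

The sharp lower bound `(ln m)^((d-1)/2) / m` for the local discrepancy holds in measure, for arbitrary
real weights and for up to `K m` points, in every dimension `d`.  So the optimal `L_q` star discrepancy
has the order `(ln m)^((d-1)/2) / m` for every `0 < q ≤ 2`, with equal weights and with the best
weights.  The lower bound is the library theorem `Pool.Agent.H730R2.LD.measure_sharp`.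
-/

set_option autoImplicit false

namespace Pool.Agent.Results.MP_173de9_an.WeightedSmallExponents

open MeasureTheory

/-- The local discrepancy `∏ x_j - Σ_μ λ_μ χ_{[0,x]}(ξ^μ)` of the points `ξ` with the weights `λ`. -/
noncomputable def localDisc {m d : ℕ} (lam : Fin m → ℝ) (ξ : Fin m → Fin d → ℝ) (x : Fin d → ℝ) : ℝ :=
  ∏ j, x j - ∑ μ : Fin m, lam μ * (Set.Icc (0 : Fin d → ℝ) x).indicator (fun _ => (1:ℝ)) (ξ μ)

/-- The `L_q` norm (quasi-norm for `q < 1`) of the weighted local discrepancy over `[0,1]^d`. -/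
noncomputable def starDisc (q : ENNReal) {m d : ℕ} (lam : Fin m → ℝ) (ξ : Fin m → Fin d → ℝ) :
    ENNReal :=
  eLpNorm (localDisc lam ξ) q (volume.restrict (Set.Icc (0 : Fin d → ℝ) 1))

/-- `D(m,d)_q`: the infimum over all `m`-point sets (repetitions allowed) in `[0,1]^d`, all weights
equal to `1 / m`. -/
noncomputable def optDisc (q : ENNReal) (m d : ℕ) : ENNReal :=
  ⨅ (ξ : Fin m → Fin d → ℝ) (_ : ∀ μ, ξ μ ∈ Set.Icc (0 : Fin d → ℝ) 1),
    starDisc q (fun _ => 1 / (m:ℝ)) ξ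

/-- The infimum over all `m`-point sets in `[0,1]^d` and all real weights. -/
noncomputable def optWeighted (q : ENNReal) (m d : ℕ) : ENNReal :=
  ⨅ (lam : Fin m → ℝ) (ξ : Fin m → Fin d → ℝ) (_ : ∀ μ, ξ μ ∈ Set.Icc (0 : Fin d → ℝ) 1),
    starDisc q lam ξ

theorem disc_eq {N d : ℕ} {M : ℝ} (hM : 0 < M) (lam : Fin N → ℝ) (ξ : Fin N → Fin d → ℝ)
    (hξ : ∀ μ, ξ μ ∈ Set.Icc (0 : Fin d → ℝ) 1) (x : Fin d → ℝ) :
    |H736R2.Lone.disc Finset.univ (fun μ => M * lam μ) ξ M x| = M * |localDisc lam ξ x| := by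
  classical
  rw [← abs_of_pos hM, ← abs_mul, abs_of_pos hM, ← abs_neg]
  congr 1
  unfold localDisc H736R2.Lone.disc
  have : ∀ μ, (Set.Icc (0 : Fin d → ℝ) x).indicator (fun _ => (1:ℝ)) (ξ μ) =
      if ∀ i, ξ μ i ≤ x i then (1 : ℝ) else 0 := by
    intro μ
    have hiff : ξ μ ∈ Set.Icc (0 : Fin d → ℝ) x ↔ ∀ i, ξ μ i ≤ x i :=
      ⟨fun h => h.2, fun h => ⟨(hξ μ).1, h⟩⟩
    by_cases hx : ∀ i, ξ μ i ≤ x i
    · rw [if_pos hx, Set.indicator_of_mem (hiff.2 hx)]
    · rw [if_neg hx, Set.indicator_of_notMem (fun h => hx (hiff.1 h))]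
  simp only [this]
  rw [mul_sub, Finset.mul_sum, neg_sub]
  congr 1
  refine Finset.sum_congr rfl fun μ _ => ?_
  split_ifs <;> ring

theorem measurable_localDisc {m d : ℕ} (lam : Fin m → ℝ) (ξ : Fin m → Fin d → ℝ) :
    Measurable (localDisc lam ξ) := by
  classical
  unfold localDisc
  apply Measurable.sub
  · apply Finset.measurable_fun_prod
    intro i _
    exact measurable_pi_apply i
  · apply Finset.measurable_fun_sum
    intro μ _
    apply Measurable.const_mul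
    have h : (fun x : Fin d → ℝ => (Set.Icc (0 : Fin d → ℝ) x).indicator (fun _ => (1:ℝ)) (ξ μ)) =
        (fun x => if (0 : Fin d → ℝ) ≤ ξ μ ∧ ∀ i, ξ μ i ≤ x i then (1 : ℝ) else 0) := by
      funext x
      by_cases hx : (0 : Fin d → ℝ) ≤ ξ μ ∧ ∀ i, ξ μ i ≤ x i
      · rw [if_pos hx, Set.indicator_of_mem]
        exact ⟨hx.1, hx.2⟩
      · rw [if_neg hx, Set.indicator_of_notMem]
        intro h
        exact hx ⟨h.1, h.2⟩
    rw [h]
    apply Measurable.ite _ measurable_const measurable_const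
    have : {x : Fin d → ℝ | (0 : Fin d → ℝ) ≤ ξ μ ∧ ∀ i, ξ μ i ≤ x i} =
        {_x : Fin d → ℝ | (0 : Fin d → ℝ) ≤ ξ μ} ∩ ⋂ i, {x : Fin d → ℝ | ξ μ i ≤ x i} := by
      ext x
      simp
    rw [this]
    apply MeasurableSet.inter (MeasurableSet.const _)
    exact MeasurableSet.iInter fun i => measurableSet_le measurable_const (measurable_pi_apply i)

theorem isProb (d : ℕ) : IsProbabilityMeasure
    (volume.restrict (Set.Icc (0 : Fin d → ℝ) 1)) := by
  constructor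
  rw [Measure.restrict_apply_univ, Real.volume_Icc_pi]
  simp

/-- The bound in measure. -/
theorem in_measure (d : ℕ) (hd : 1 ≤ d) (K : ℝ) : ∃ c : ℝ, 0 < c ∧ ∀ m : ℕ, 2 ≤ m →
    ∀ N : ℕ, (N : ℝ) ≤ K * m → ∀ (lam : Fin N → ℝ) (ξ : Fin N → Fin d → ℝ),
      (∀ μ, ξ μ ∈ Set.Icc (0 : Fin d → ℝ) 1) →
      ENNReal.ofReal c ≤ volume {x : Fin d → ℝ | x ∈ Set.Icc (0 : Fin d → ℝ) 1 ∧
        c * (Real.log m) ^ (((d : ℝ) - 1) / 2) / m ≤ |localDisc lam ξ x|} := by
  obtain ⟨ε, hε, c, hc, H⟩ := H730R2.LD.measure_sharp d hd K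
  refine ⟨min ε c, lt_min hε hc, fun m hm N hN lam ξ hξ => ?_⟩
  have hm2 : (2 : ℝ) ≤ m := by exact_mod_cast hm
  have hm0 : (0 : ℝ) < m := by linarith
  have hL : 0 ≤ (Real.log m) ^ (((d : ℝ) - 1) / 2) :=
    Real.rpow_nonneg (Real.log_nonneg (by linarith)) _
  refine (ENNReal.ofReal_le_ofReal (min_le_left ε c)).trans ((H m hm2 (Fin N) Finset.univ
    (fun μ => m * lam μ) ξ (by simpa using hN)).trans ?_)
  apply measure_mono
  rintro x ⟨hx1, hx2⟩
  refine ⟨hx1, ?_⟩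
  rw [disc_eq hm0 lam ξ hξ x] at hx2
  rw [div_le_iff₀' hm0]
  refine le_trans ?_ hx2
  gcongr
  exact min_le_right _ _

/-- The lower bound for one weighted point set and one exponent. -/
theorem lower_one {m d : ℕ} {lam : Fin m → ℝ} {ξ : Fin m → Fin d → ℝ} {c θ : ℝ} (hc : 0 < c)
    (hθ : 0 ≤ θ)
    (h : ENNReal.ofReal c ≤ volume {x : Fin d → ℝ | x ∈ Set.Icc (0 : Fin d → ℝ) 1 ∧
        θ ≤ |localDisc lam ξ x|}) {p : ENNReal} (hp0 : p ≠ 0) (hp1 : p ≠ ⊤) :
    ENNReal.ofReal (θ * c ^ (1 / p.toReal)) ≤ starDisc p lam ξ := by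
  have hpos : 0 < p.toReal := ENNReal.toReal_pos hp0 hp1
  unfold starDisc
  refine le_trans ?_ (pow_mul_meas_ge_le_eLpNorm _ hp0 hp1
    (measurable_localDisc lam ξ).aestronglyMeasurable (ENNReal.ofReal θ ^ p.toReal))
  rw [ENNReal.mul_rpow_of_nonneg _ _ (by positivity), ← ENNReal.rpow_mul,
    mul_one_div_cancel hpos.ne', ENNReal.rpow_one, ENNReal.ofReal_mul hθ,
    ← ENNReal.ofReal_rpow_of_pos hc]
  gcongr
  refine h.trans ?_
  rw [Measure.restrict_apply]
  · apply measure_mono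
    rintro x ⟨hx1, hx2⟩
    refine ⟨?_, hx1⟩
    show ENNReal.ofReal θ ^ p.toReal ≤ ‖localDisc lam ξ x‖ₑ ^ p.toReal
    rw [← ofReal_norm, Real.norm_eq_abs]
    gcongr
  · exact measurableSet_le measurable_const
      ((measurable_localDisc lam ξ).enorm.pow_const _)

/-- In every dimension `d ≥ 1`:
(1) for every `K` there is `c > 0` such that for all `m ≥ 2`, all `N ≤ K m` points of `[0,1]^d` and all
real weights the local discrepancy is at least `c (ln m)^((d-1)/2) / m` in absolute value on a subset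
of `[0,1]^d` of measure at least `c`;
(2) for every `0 < q ≤ ∞` there is `c > 0` such that the optimal weighted `L_q` discrepancy is at least
`c (ln m)^((d-1)/2) / m` for all `m ≥ 2`;
(3) there is `C` such that for all `q ≤ 2` and `m ≥ 2` the optimal weighted discrepancy is at most the
optimal discrepancy `D(m,d)_q`, which is at most `C (ln m)^((d-1)/2) / m`.
So for every `0 < q ≤ 2` both have the order `(ln m)^((d-1)/2) / m`. -/
theorem result (d : ℕ) (hd : 1 ≤ d) :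
    (∀ K : ℝ, ∃ c : ℝ, 0 < c ∧ ∀ m : ℕ, 2 ≤ m → ∀ N : ℕ, (N : ℝ) ≤ K * m →
      ∀ (lam : Fin N → ℝ) (ξ : Fin N → Fin d → ℝ), (∀ μ, ξ μ ∈ Set.Icc (0 : Fin d → ℝ) 1) →
        ENNReal.ofReal c ≤ volume {x : Fin d → ℝ | x ∈ Set.Icc (0 : Fin d → ℝ) 1 ∧
          c * (Real.log m) ^ (((d : ℝ) - 1) / 2) / m ≤ |localDisc lam ξ x|}) ∧
    (∀ q : ENNReal, 0 < q → ∃ c : ℝ, 0 < c ∧ ∀ m : ℕ, 2 ≤ m →
      ENNReal.ofReal (c * (Real.log m) ^ (((d : ℝ) - 1) / 2) / m) ≤ optWeighted q m d) ∧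
    (∃ C : ℝ, 0 < C ∧ ∀ q : ENNReal, q ≤ 2 → ∀ m : ℕ, 2 ≤ m →
      optWeighted q m d ≤ optDisc q m d ∧
      optDisc q m d ≤ ENNReal.ofReal (C * (Real.log m) ^ (((d : ℝ) - 1) / 2) / m)) := by
  have hprob := isProb d
  refine ⟨in_measure d hd, fun q hq => ?_, ?_⟩
  · obtain ⟨c, hc, H⟩ := in_measure d hd 1
    set p : ENNReal := min q 1 with hp
    have hp0 : p ≠ 0 := (lt_min hq one_pos).ne'
    have hp1 : p ≠ ⊤ := ne_top_of_le_ne_top ENNReal.one_ne_top (min_le_right _ _)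
    refine ⟨c * c ^ (1 / p.toReal), by positivity, fun m hm => ?_⟩
    have hm2 : (2 : ℝ) ≤ m := by exact_mod_cast hm
    have hL : 0 ≤ (Real.log m) ^ (((d : ℝ) - 1) / 2) :=
      Real.rpow_nonneg (Real.log_nonneg (by linarith)) _
    unfold optWeighted
    refine le_iInf fun lam => le_iInf₂ fun ξ hξ => ?_
    have h1 := lower_one hc (θ := c * (Real.log m) ^ (((d : ℝ) - 1) / 2) / m) (by positivity)
      (H m hm m (by simp) lam ξ hξ) hp0 hp1
    refine le_trans (le_of_eq ?_) (h1.trans ?_)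
    · congr 1
      ring
    · exact eLpNorm_le_eLpNorm_of_exponent_le (min_le_left _ _)
        (measurable_localDisc lam ξ).aestronglyMeasurable
  · obtain ⟨C, hC, H⟩ := H730R2.LU.upper_two d hd
    refine ⟨C, hC, fun q hq m hm => ⟨?_, ?_⟩⟩
    · unfold optWeighted optDisc
      exact iInf_le _ (fun _ : Fin m => 1 / (m : ℝ))
    · obtain ⟨ξ, hξ, hb⟩ := H m hm
      unfold optDisc
      refine (iInf₂_le ξ hξ).trans ?_
      unfold starDisc
      refine (eLpNorm_le_eLpNorm_of_exponent_le hq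
        (measurable_localDisc _ ξ).aestronglyMeasurable).trans ?_
      refine le_trans (le_of_eq ?_) hb
      congr 1
      funext x
      unfold localDisc H730R2.LU.ld
      rw [Finset.mul_sum]

end Pool.Agent.Results.MP_173de9_an.WeightedSmallExponents
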